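import Mathlib.Data.Fintype.Powerset
import Mathlib.Data.Fintype.Prod
import Mathlib.Analysis.Real.Sqrt
import Mathlib.Tactic

set_option autoImplicit false

/-!
# MP_314109_co : the inequality fails for two families of four sets on five points
-/

namespace Pool.Agent.Results.MP_314109_co.FailsForFour

open Finset

/-- The distance `d(A, B) = √(|A \ B|² + |B \ A|²)`. -/
noncomputable def d {n : ℕ} (A B : Finset (Fin n)) : ℝ :=
  √(((A \ B).card : ℝ) ^ 2 + ((B \ A).card : ℝ) ^ 2)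

/-- The first family: `{0,1}, {2,3}, {2,3,4}, {0,1,4}`. -/
def FA : Fin 4 → Finset (Fin 5) := ![{0, 1}, {2, 3}, {2, 3, 4}, {0, 1, 4}]

/-- The second family: `{1,2}, {0,3}, {0,3,4}, {1,2,4}`. -/
def FB : Fin 4 → Finset (Fin 5) := ![{1, 2}, {0, 3}, {0, 3, 4}, {1, 2, 4}]

lemma pairs : univ.filter (fun p : Fin 4 × Fin 4 => p.1 < p.2) =
    {(0, 1), (0, 2), (0, 3), (1, 2), (1, 3), (2, 3)} := by decide

lemma d_eq {n : ℕ} (A B : Finset (Fin n)) (a b : ℕ) (ha : (A \ B).card = a)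
    (hb : (B \ A).card = b) : d A B = √((a : ℝ) ^ 2 + (b : ℝ) ^ 2) := by
  rw [d, ha, hb]

/-- the value of `d` on a pair with difference sizes `a`, `b` -/
lemma key : (1 : ℝ) + √13 > 2 * √5 := by
  have h1 : (3 : ℝ) < √13 := by
    rw [Real.lt_sqrt (by norm_num)]
    norm_num
  have h2 : √13 ^ 2 = (13 : ℝ) := Real.sq_sqrt (by norm_num)
  have h3 : √5 ^ 2 = (5 : ℝ) := Real.sq_sqrt (by norm_num)
  have h4 : (0 : ℝ) ≤ √5 := Real.sqrt_nonneg _
  nlinarith

theorem result : ∃ n m : ℕ, ∃ A B : Fin m → Finset (Fin n),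
    Function.Injective A ∧ Function.Injective B ∧
    ∑ i, ∑ j, d (A i) (B j) <
      ∑ p ∈ univ.filter (fun p : Fin m × Fin m => p.1 < p.2), d (A p.1) (A p.2) +
      ∑ p ∈ univ.filter (fun p : Fin m × Fin m => p.1 < p.2), d (B p.1) (B p.2) := by
  refine ⟨5, 4, FA, FB, by decide, by decide, ?_⟩
  have e1 : √((1 : ℕ) ^ 2 + (1 : ℕ) ^ 2 : ℝ) = √2 := by norm_num
  have e2 : √((2 : ℕ) ^ 2 + (2 : ℕ) ^ 2 : ℝ) = 2 * √2 := by
    rw [show ((2 : ℕ) ^ 2 + (2 : ℕ) ^ 2 : ℝ) = 2 ^ 2 * 2 by norm_num,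
      Real.sqrt_mul (by norm_num), Real.sqrt_sq (by norm_num)]
  have e3 : √((1 : ℕ) ^ 2 + (2 : ℕ) ^ 2 : ℝ) = √5 := by norm_num
  have e4 : √((2 : ℕ) ^ 2 + (1 : ℕ) ^ 2 : ℝ) = √5 := by norm_num
  have e5 : √((2 : ℕ) ^ 2 + (3 : ℕ) ^ 2 : ℝ) = √13 := by norm_num
  have e6 : √((0 : ℕ) ^ 2 + (1 : ℕ) ^ 2 : ℝ) = 1 := by norm_num
  -- distances inside the first family
  have a01 : d (FA 0) (FA 1) = 2 * √2 := (d_eq _ _ 2 2 (by decide) (by decide)).trans e2
  have a02 : d (FA 0) (FA 2) = √13 := (d_eq _ _ 2 3 (by decide) (by decide)).trans e5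
  have a03 : d (FA 0) (FA 3) = 1 := (d_eq _ _ 0 1 (by decide) (by decide)).trans e6
  have a12 : d (FA 1) (FA 2) = 1 := (d_eq _ _ 0 1 (by decide) (by decide)).trans e6
  have a13 : d (FA 1) (FA 3) = √13 := (d_eq _ _ 2 3 (by decide) (by decide)).trans e5
  have a23 : d (FA 2) (FA 3) = 2 * √2 := (d_eq _ _ 2 2 (by decide) (by decide)).trans e2
  have b01 : d (FB 0) (FB 1) = 2 * √2 := (d_eq _ _ 2 2 (by decide) (by decide)).trans e2
  have b02 : d (FB 0) (FB 2) = √13 := (d_eq _ _ 2 3 (by decide) (by decide)).trans e5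
  have b03 : d (FB 0) (FB 3) = 1 := (d_eq _ _ 0 1 (by decide) (by decide)).trans e6
  have b12 : d (FB 1) (FB 2) = 1 := (d_eq _ _ 0 1 (by decide) (by decide)).trans e6
  have b13 : d (FB 1) (FB 3) = √13 := (d_eq _ _ 2 3 (by decide) (by decide)).trans e5
  have b23 : d (FB 2) (FB 3) = 2 * √2 := (d_eq _ _ 2 2 (by decide) (by decide)).trans e2
  -- distances between the families
  have c00 : d (FA 0) (FB 0) = √2 := (d_eq _ _ 1 1 (by decide) (by decide)).trans e1
  have c01 : d (FA 0) (FB 1) = √2 := (d_eq _ _ 1 1 (by decide) (by decide)).trans e1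
  have c02 : d (FA 0) (FB 2) = √5 := (d_eq _ _ 1 2 (by decide) (by decide)).trans e3
  have c03 : d (FA 0) (FB 3) = √5 := (d_eq _ _ 1 2 (by decide) (by decide)).trans e3
  have c10 : d (FA 1) (FB 0) = √2 := (d_eq _ _ 1 1 (by decide) (by decide)).trans e1
  have c11 : d (FA 1) (FB 1) = √2 := (d_eq _ _ 1 1 (by decide) (by decide)).trans e1
  have c12 : d (FA 1) (FB 2) = √5 := (d_eq _ _ 1 2 (by decide) (by decide)).trans e3
  have c13 : d (FA 1) (FB 3) = √5 := (d_eq _ _ 1 2 (by decide) (by decide)).trans e3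
  have c20 : d (FA 2) (FB 0) = √5 := (d_eq _ _ 2 1 (by decide) (by decide)).trans e4
  have c21 : d (FA 2) (FB 1) = √5 := (d_eq _ _ 2 1 (by decide) (by decide)).trans e4
  have c22 : d (FA 2) (FB 2) = √2 := (d_eq _ _ 1 1 (by decide) (by decide)).trans e1
  have c23 : d (FA 2) (FB 3) = √2 := (d_eq _ _ 1 1 (by decide) (by decide)).trans e1
  have c30 : d (FA 3) (FB 0) = √5 := (d_eq _ _ 2 1 (by decide) (by decide)).trans e4
  have c31 : d (FA 3) (FB 1) = √5 := (d_eq _ _ 2 1 (by decide) (by decide)).trans e4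
  have c32 : d (FA 3) (FB 2) = √2 := (d_eq _ _ 1 1 (by decide) (by decide)).trans e1
  have c33 : d (FA 3) (FB 3) = √2 := (d_eq _ _ 1 1 (by decide) (by decide)).trans e1
  rw [pairs]
  rw [sum_insert (by decide), sum_insert (by decide), sum_insert (by decide),
    sum_insert (by decide), sum_insert (by decide), sum_singleton,
    sum_insert (by decide), sum_insert (by decide), sum_insert (by decide),
    sum_insert (by decide), sum_insert (by decide), sum_singleton]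
  simp only [Fin.sum_univ_four]
  rw [a01, a02, a03, a12, a13, a23, b01, b02, b03, b12, b13, b23, c00, c01, c02, c03, c10, c11,
    c12, c13, c20, c21, c22, c23, c30, c31, c32, c33]
  have := key
  linarith

end Pool.Agent.Results.MP_314109_co.FailsForFour
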